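import Pool.Agent.H55.Mey.Graph

/-!
# Cop number, diameter and degrees

Proof idea. A cop of the last `D` rounds may commit himself to an end which he can reach. Commitments
are made at a rate: in the count of the guarantees the mass of a commitment is multiplied with
`L`, but the guarantee of one cop at an end is cut at `1` after every round. For these guarantees
the pair inequality `∑ min (a, c / L) min (b, d / L) ≤ 2 c d / L` holds with a constant which does
not depend on `D`, and self-play and windows (as in the starting files `H594R2.Mey2`, `N272.Mey`)
give `O(λ √(n / L))` cops whose guarantees at every end have the sum `λ`. In the last `D` rounds a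
commitment to the end `w` is accepted with the probability `ν / R w`, where `ν` is its mass and `R w`
is `8 L` minus the mass of the commitments to `w` which were declined before. The derandomisation
uses, for each path of the robber, a rectangular permanent: the rows are the cops, a cop is
unmatched (weight `1 - p / 4`) or matched with an end to which he will have been committed. The sum
of these permanents over all the paths does not increase, and it is small at the beginning if `λ`
is at least of the order of `L` plus the logarithm of the number of the paths.
-/

set_option autoImplicit false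

open scoped Classical
open N6ef48c04

namespace Pool.Agent.Results.MP_964892_co.DiameterAndDegree

/-- The number of the walks with `m` steps which start in `v`, where a step either goes to an adjacent
vertex or stays. -/
noncomputable def lazyWalks {V : Type*} [Fintype V] (G : SimpleGraph V) : ℕ → V → ℕ
  | 0, _ => 1
  | m + 1, v => ∑ u with v = u ∨ G.Adj v u, lazyWalks G m u

theorem psum_eq {V : Type*} [Fintype V] (G : SimpleGraph V) (m : ℕ) :
    ∀ v, Pool.Agent.H55.Mey.psum (Pool.Agent.H594R2.Mey2.ofGraph G) m v (fun _ => 1) =
      (lazyWalks G m v : ℝ) := by
  induction m with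
  | zero => intro v; simp [Pool.Agent.H55.Mey.psum, lazyWalks]
  | succ m ih =>
    intro v
    simp only [lazyWalks, Nat.cast_sum, Pool.Agent.H55.Mey.psum]
    refine Finset.sum_congr ?_ fun u _ => ih u
    ext u
    simp only [Finset.mem_filter, Finset.mem_univ, true_and]
    exact Iff.rfl

/-- Let `G` be a connected graph on `n` vertices in which any two vertices have distance at most `D`,
where `D ≥ 1`.
(1) If all the degrees are at most `d`, where `d ≥ 1`, then
`c(G) ≤ 44000 √(n D log (d + 1))`.
(2) If at most `W` lazy walks with `D` steps start in every vertex, then
`c(G) ≤ 28000 √(n (1 + log W))`. -/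
theorem result {V : Type*} [Fintype V] (G : SimpleGraph V) (hG : G.Connected) (D : ℕ)
    (hD1 : 1 ≤ D) (hD : ∀ u v, G.dist u v ≤ D) :
    (∀ d : ℕ, 1 ≤ d → (∀ v, (G.neighborSet v).ncard ≤ d) →
      (copNumber G : ℝ) ≤ 44000 * √(Fintype.card V * (D * Real.log (d + 1)))) ∧
    ∀ W : ℝ, (∀ v, (lazyWalks G D v : ℝ) ≤ W) →
      (copNumber G : ℝ) ≤ 28000 * √(Fintype.card V * (1 + Real.log W)) := by
  refine ⟨fun d hd1 hd => ?_, fun W hW => ?_⟩
  · refine Pool.Agent.H55.Mey.graph_degrees G hG D d hD1 hd1 hD fun v => ?_
    refine le_trans (le_of_eq ?_) (hd v)
    rw [← Set.ncard_coe_finset]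
    congr 1
    ext u
    simp
  · exact Pool.Agent.H55.Mey.graph_walks G hG D hD1 hD W fun v => (psum_eq G D v).le.trans (hW v)

end Pool.Agent.Results.MP_964892_co.DiameterAndDegree
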