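import Pool.Agent.H50.GR.PolarInst

/-!
# The cop numbers of dual polar graphs

The dual polar graphs of rank `k` over a field with `q` elements have cop number at most
`S = 1 + q + ... + q ^ (k - 1)`. If the lines have at least `s + 1` points then it is more than `s * S / (q + 1)`, and it
is equal to `S` if `s > q`. Meyniel's bound holds with constant one for the symplectic dual polar graphs.
-/

set_option autoImplicit false

open Module
open N6ef48c04

namespace Pool.Agent.Results.MP_964892_co.DualPolarGraphs

universe u v

/-- The graph on a family `F` of subspaces of `V`: two different members are adjacent if their intersection has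
dimension `k - 1`. -/
def subspaceGraph {K : Type u} {V : Type v} [Field K] [AddCommGroup V] [Module K V] (F : Set (Submodule K V))
    (k : ℕ) : SimpleGraph F where
  Adj A B := A ≠ B ∧ finrank K (A.1 ⊓ B.1 : Submodule K V) + 1 = k
  symm := ⟨fun A B h => ⟨h.1.symm, by rw [inf_comm]; exact h.2⟩⟩
  loopless := ⟨fun A h => h.1 rfl⟩

/-- The family of the `k`-dimensional subspaces `S` of `V` with `β x y = 0` for all `x`, `y` in `S`. -/
def isotropic {K : Type u} {V : Type v} [Field K] [AddCommGroup V] [Module K V] (β : V → Dual K V) (k : ℕ) :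
    Set (Submodule K V) :=
  {S | finrank K S = k ∧ ∀ x ∈ S, ∀ y ∈ S, β x y = 0}

/-- The family of the `k`-dimensional subspaces of `V` on which the quadratic form `Q` vanishes. -/
def singular {K : Type u} {V : Type v} [Field K] [AddCommGroup V] [Module K V] (Q : QuadraticForm K V) (k : ℕ) :
    Set (Submodule K V) :=
  {S | finrank K S = k ∧ ∀ x ∈ S, Q x = 0}

/-- The family of the `k`-dimensional subspaces of `K ^ k × K ^ k` which are totally isotropic for the standard
alternating form `a ⬝ d - b ⬝ c` of `(a, b)` and `(c, d)`. -/
def lagrangian (K : Type u) [Field K] (k : ℕ) : Set (Submodule K ((Fin k → K) × (Fin k → K))) :=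
  {S | finrank K S = k ∧ ∀ x ∈ S, ∀ y ∈ S, x.1 ⬝ᵥ y.2 - x.2 ⬝ᵥ y.1 = 0}

/-- Each `(k - 1)`-dimensional subspace of a member `B` of `F` is contained in at least `s` other members of `F`. -/
def LinesHave {K : Type u} {V : Type v} [Field K] [AddCommGroup V] [Module K V] (F : Set (Submodule K V))
    (k s : ℕ) : Prop :=
  ∀ B : F, ∀ H ≤ B.1, finrank K H + 1 = k → s ≤ Nat.card {B' : F // H ≤ B'.1 ∧ B' ≠ B}

/-- **The cop numbers of dual polar graphs.** Let `K` be a field with `q` elements, `0 < k` and
`S = 1 + q + ... + q ^ (k - 1)`. The cop number `c` of a dual polar graph of rank `k` over `K` is at most `S`; and if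
the lines of the graph have at least `s + 1` points then `s * S < (q + 1) * c` if `s ≤ q`, and `c = S` if `s > q`.
Here the dual polar graph is the graph of the totally isotropic `k`-dimensional subspaces for a reflexive map `β` from
`V` to its dual (for example a reflexive sesquilinear form), or of the totally singular `k`-dimensional subspaces for a
quadratic form `Q`, where `k` is the largest possible dimension. For the symplectic dual polar graph of rank `k`,
`q * S < (q + 1) * c`, `c ≤ S`, and `c` is at most the square root of the number of vertices. -/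
theorem result (K : Type u) [Field K] [Fintype K] (k : ℕ) (hk : 0 < k) :
    (∀ (V : Type v) [AddCommGroup V] [Module K V] [FiniteDimensional K V] (β : V → Dual K V),
      (∀ x y, β x y = 0 → β y x = 0) →
      (∀ S : Submodule K V, (∀ x ∈ S, ∀ y ∈ S, β x y = 0) → finrank K S ≤ k) →
        copNumber (subspaceGraph (isotropic β k) k) ≤ ∑ j ∈ Finset.range k, Fintype.card K ^ j ∧
        ∀ s : ℕ, 0 < s → (isotropic β k).Nonempty → LinesHave (isotropic β k) k s →
          (s ≤ Fintype.card K → s * ∑ j ∈ Finset.range k, Fintype.card K ^ j <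
            (Fintype.card K + 1) * copNumber (subspaceGraph (isotropic β k) k)) ∧
          (Fintype.card K < s → copNumber (subspaceGraph (isotropic β k) k) =
            ∑ j ∈ Finset.range k, Fintype.card K ^ j)) ∧
    (∀ (V : Type v) [AddCommGroup V] [Module K V] [FiniteDimensional K V] (Q : QuadraticForm K V),
      (∀ S : Submodule K V, (∀ x ∈ S, Q x = 0) → finrank K S ≤ k) →
        copNumber (subspaceGraph (singular Q k) k) ≤ ∑ j ∈ Finset.range k, Fintype.card K ^ j ∧
        ∀ s : ℕ, 0 < s → (singular Q k).Nonempty → LinesHave (singular Q k) k s →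
          (s ≤ Fintype.card K → s * ∑ j ∈ Finset.range k, Fintype.card K ^ j <
            (Fintype.card K + 1) * copNumber (subspaceGraph (singular Q k) k)) ∧
          (Fintype.card K < s → copNumber (subspaceGraph (singular Q k) k) =
            ∑ j ∈ Finset.range k, Fintype.card K ^ j)) ∧
    copNumber (subspaceGraph (lagrangian K k) k) ≤ ∑ j ∈ Finset.range k, Fintype.card K ^ j ∧
    Fintype.card K * ∑ j ∈ Finset.range k, Fintype.card K ^ j <
      (Fintype.card K + 1) * copNumber (subspaceGraph (lagrangian K k) k) ∧
    (copNumber (subspaceGraph (lagrangian K k) k) : ℝ) ≤ Real.sqrt (Nat.card (lagrangian K k)) := by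
  refine ⟨fun V _ _ _ β hβ hmax => ⟨H50.GR.copNumber_le (H50.GR.exchange_isotropic hβ hmax) hk,
      fun s hs hne hl => H50.GR.bounds_polar
        ⟨H50.GR.exchange_isotropic hβ hmax, H50.GR.near_isotropic hβ hmax, hl⟩ hs hk hne⟩,
    fun V _ _ _ Q hmax => ⟨H50.GR.copNumber_le (H50.GR.exchange_singular hmax) hk,
      fun s hs hne hl => H50.GR.bounds_polar
        ⟨H50.GR.exchange_singular hmax, H50.GR.near_singular hmax, hl⟩ hs hk hne⟩,
    H50.GR.copNumber_le H50.GR.exchange_lagrangian hk, ?_, ?_⟩
  · have h1 := H50.GR.card_lagrangian_ge (K := K) hk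
    have hne : (H50.GR.lagrangian K k).Nonempty := by
      have h2 : 0 < Nat.card (H50.GR.lagrangian K k) := by omega
      obtain ⟨⟨B, hB⟩⟩ := (Nat.card_pos_iff.1 h2).1
      exact ⟨B, hB⟩
    exact (H50.GR.bounds_polar H50.GR.polar_lagrangian Fintype.card_pos hk hne).1 le_rfl
  · refine Real.le_sqrt_of_sq_le ?_
    exact_mod_cast H50.GR.meyniel_lagrangian_nat (K := K) hk

end Pool.Agent.Results.MP_964892_co.DualPolarGraphs
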