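import Pool.Agent.H50.GR.Exact

/-!
# The cop numbers of the Grassmann graphs and of the bilinear forms graphs

The graph of the `k`-dimensional subspaces of an `n`-dimensional space `V` over a field with `q` elements which meet a
given subspace `W` trivially has cop number at most `1 + q + ... + q ^ (k - 1)`, with equality in nearly all cases with
`n > 2 * k`, and Meyniel's bound holds with constant one. For `W = 0` these are the Grassmann graphs, whose cop number
is determined in all cases, and for `dim W = n - k` they are the bilinear forms graphs.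
-/

set_option autoImplicit false

open Module
open N6ef48c04

namespace Pool.Agent.Results.MP_964892_co.GrassmannGraphs

/-- The graph whose vertices are the `k`-dimensional subspaces of `V` which meet `W` trivially; two different ones are
adjacent if their intersection has dimension `k - 1`. -/
def avoidGraph {K V : Type*} [Field K] [AddCommGroup V] [Module K V] (W : Submodule K V) (k : ℕ) :
    SimpleGraph {S : Submodule K V // finrank K S = k ∧ S ⊓ W = ⊥} where
  Adj A B := A ≠ B ∧ finrank K (A.1 ⊓ B.1 : Submodule K V) + 1 = k
  symm := ⟨fun A B h => ⟨h.1.symm, by rw [inf_comm]; exact h.2⟩⟩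
  loopless := ⟨fun A h => h.1 rfl⟩

/-- the Grassmann graph is the case `W = 0` -/
theorem copNumber_bot {K V : Type*} [Field K] [AddCommGroup V] [Module K V] (k : ℕ) :
    copNumber (avoidGraph (⊥ : Submodule K V) k) = copNumber (H50.GR.grassmannGraph K V k) := by
  let e : {S : Submodule K V // finrank K S = k ∧ S ⊓ ⊥ = ⊥} ≃ H50.GR.subspaces K V k :=
    { toFun := fun S => ⟨S.1, S.2.1⟩
      invFun := fun S => ⟨S.1, S.2, inf_bot_eq _⟩
      left_inv := fun S => rfl
      right_inv := fun S => rfl }
  refine H50.GR.copNumber_iso (G := avoidGraph (⊥ : Submodule K V) k) (G' := H50.GR.grassmannGraph K V k)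
    ⟨e, fun {A B} => ?_⟩
  constructor
  · rintro ⟨h1, h2⟩
    exact ⟨fun h => h1 (congrArg e h), h2⟩
  · rintro ⟨h1, h2⟩
    exact ⟨fun h => h1 (e.injective h), h2⟩

/-- **The cop numbers of the Grassmann graphs and of the bilinear forms graphs.** Let `K` be a field with `q` elements,
`V` a vector space over `K` of dimension `n`, `W` a subspace of `V` of dimension `w`, and `0 < k`. Let `c` be the cop
number of the graph of the `k`-dimensional subspaces of `V` which meet `W` trivially.
Then `c ≤ 1 + q + ... + q ^ (k - 1)`, with equality if `n > 2 * k` and `w < n - k`, and if `n > 2 * k + 1` and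
`w = n - k`; moreover `c` is at most the square root of the number of vertices. For `W = 0` and `k < n` (the Grassmann
graph), `c = 1 + q + ... + q ^ (m - 1)` for `m = min k (n - k)`. -/
theorem result (K V : Type*) [Field K] [Fintype K] [AddCommGroup V] [Module K V] [FiniteDimensional K V]
    (W : Submodule K V) (k : ℕ) (hk : 0 < k) :
    copNumber (avoidGraph W k) ≤ ∑ j ∈ Finset.range k, Fintype.card K ^ j ∧
      (2 * k + 1 ≤ finrank K V ∧ k + finrank K W < finrank K V ∨
        2 * k + 2 ≤ finrank K V ∧ k + finrank K W = finrank K V →
          copNumber (avoidGraph W k) = ∑ j ∈ Finset.range k, Fintype.card K ^ j) ∧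
      (copNumber (avoidGraph W k) : ℝ) ≤
        Real.sqrt (Nat.card {S : Submodule K V // finrank K S = k ∧ S ⊓ W = ⊥}) ∧
      (W = ⊥ → k < finrank K V →
        copNumber (avoidGraph W k) =
          ∑ j ∈ Finset.range (min k (finrank K V - k)), Fintype.card K ^ j) := by
  refine ⟨H50.GR.copNumber_le H50.GR.exchange_avoiding hk, fun h => H50.GR.copNumber_avoid_eq hk h, ?_, ?_⟩
  · refine Real.le_sqrt_of_sq_le ?_
    exact_mod_cast H50.GR.meyniel_avoid_nat hk
  · rintro rfl hkn
    rw [copNumber_bot]
    exact H50.GR.copNumber_grassmann hk hkn

end Pool.Agent.Results.MP_964892_co.GrassmannGraphs
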